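import Pool.Agent.helper19.HF.SpecC
import Pool.Agent.helper72.HF.LRA

/-!
# Project HF, row LAZ: popular values on progressions with two slopes, from PPZ

Proof: see the docstring of `LAZ_stmt` in `Pool/Agent/helper19/HF/SpecC.lean`; adaptation of `Pool/Agent/helper72/HF/LRA.lean`.
-/

set_option autoImplicit false

namespace Pool.Agent.HF

open Finset

lemma LAZ_cnt (a b : ℕ) (T S S' : Finset ℕ) (p q : ℕ) (δ : ℤ) (P : ℕ → ℕ → Prop) [∀ s x, Decidable (P s x)]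
    (h : ∀ s ∈ T, ∀ x, P s x → s + q * x ∈ S ∧ ∃ v ∈ S', (a : ℤ) * ((s + q * x : ℕ) : ℤ) - b * (v : ℕ) = δ) :
    ∑ s ∈ T, #{x ∈ range p | P s x} ≤ p * ctz a b S S' δ := by
  classical
  have h1 : ∑ s ∈ T, #{x ∈ range p | P s x} = ∑ x ∈ range p, #{s ∈ T | P s x} :=
    Finset.sum_card_bipartiteAbove_eq_sum_card_bipartiteBelow _
  rw [h1]
  have h2 : ∀ x ∈ range p, #{s ∈ T | P s x} ≤ ctz a b S S' δ := by
    intro x _
    unfold ctz
    refine le_trans ?_ (Finset.card_image_le (f := Prod.fst))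
    refine Finset.card_le_card_of_injOn (fun s => s + q * x) ?_ ?_
    · intro s hs
      have hs' := Finset.mem_filter.mp (Finset.mem_coe.mp hs)
      obtain ⟨h3, v, hv, h4⟩ := h s hs'.1 x hs'.2
      refine Finset.mem_coe.mpr (Finset.mem_image.mpr ⟨(s + q * x, v), ?_, rfl⟩)
      exact Finset.mem_filter.mpr ⟨Finset.mem_product.mpr ⟨h3, hv⟩, h4⟩
    · intro s _ s' _ hss
      simpa using hss
  have h3 := Finset.sum_le_card_nsmul (range p) _ _ h2
  simpa using h3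

/-- the partner of `s` -/
def LAZ_f (a b : ℕ) (w : ℤ) (s : ℕ) : ℕ := (((a : ℤ) * s - w) / b).toNat

lemma LAZ_fe (a b : ℕ) (hb : 1 ≤ b) (w : ℤ) (s s' : ℕ) (h : (a : ℤ) * (s : ℕ) - b * (s' : ℕ) = w) : LAZ_f a b w s = s' := by
  unfold LAZ_f
  have hb0 : (b : ℤ) ≠ 0 := by
    have : (1 : ℤ) ≤ b := by exact_mod_cast hb
    omega
  have h1 : (a : ℤ) * s - w = b * s' := by linarith
  rw [h1, Int.mul_ediv_cancel_left _ hb0, Int.toNat_natCast]

lemma LAZ_rd (a b : ℕ) (ha : 1 ≤ a) (hb : 1 ≤ b) (p q d : ℕ) (hp : 1 ≤ p) (hd : d < p) (S S' T : Finset ℕ) (w : ℤ)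
    (hT : ∀ s ∈ T, (a : ℤ) * (s : ℕ) - b * (LAZ_f a b w s : ℕ) = w) :
    ∑ s ∈ T, rdz p a b (LRA_A p q S s) (LRA_A p q S' (LAZ_f a b w s)) d ≤
      p * ∑ j ∈ Icc (-(a + b : ℤ)) (a + b), ctz a b S S' (w + q * (d : ℕ) + q * p * j) := by
  classical
  have hp0 : (0 : ℤ) < p := by exact_mod_cast hp
  have ha0 : (1 : ℤ) ≤ a := by exact_mod_cast ha
  have hb0 : (1 : ℤ) ≤ b := by exact_mod_cast hb
  have hd0 : (d : ℤ) < p := by exact_mod_cast hd
  set Q : ℤ → ℕ → ℕ → Prop := fun j s x => s + q * x ∈ S ∧ ∃ y, LAZ_f a b w s + q * y ∈ S' ∧ (a : ℤ) * (x : ℕ) - b * (y : ℕ) = d + p * j with hQ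
  have h1 : ∀ s ∈ T, rdz p a b (LRA_A p q S s) (LRA_A p q S' (LAZ_f a b w s)) d ≤
      ∑ j ∈ Icc (-(a + b : ℤ)) (a + b), #{x ∈ range p | Q j s x} := by
    intro s hs
    rw [← Finset.card_sigma]
    unfold rdz
    refine Finset.card_le_card_of_injOn (fun z => (⟨((a : ℤ) * (z.1 : ℕ) - b * (z.2 : ℕ) - d) / p, z.1⟩ : (_ : ℤ) × ℕ)) ?_ ?_
    · intro z hz
      have hz' := Finset.mem_filter.mp (Finset.mem_coe.mp hz)
      obtain ⟨hz1, hz2⟩ := Finset.mem_product.mp hz'.1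
      have hz1' := Finset.mem_filter.mp hz1
      have hz2' := Finset.mem_filter.mp hz2
      obtain ⟨j, hj⟩ := hz'.2
      have e1 : ((a : ℤ) * (z.1 : ℕ) - b * (z.2 : ℕ) - d) / p = j := by
        rw [hj, Int.mul_ediv_cancel_left _ hp0.ne']
      have b1 : (z.1 : ℤ) < p := by exact_mod_cast Finset.mem_range.mp hz1'.1
      have b2 : (z.2 : ℤ) < p := by exact_mod_cast Finset.mem_range.mp hz2'.1
      have b3 : (0 : ℤ) ≤ z.1 := Int.natCast_nonneg _
      have b4 : (0 : ℤ) ≤ z.2 := Int.natCast_nonneg _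
      have b5 : (0 : ℤ) ≤ d := Int.natCast_nonneg _
      refine Finset.mem_coe.mpr (Finset.mem_sigma.mpr ⟨?_, ?_⟩)
      · show ((a : ℤ) * (z.1 : ℕ) - b * (z.2 : ℕ) - d) / p ∈ _
        rw [e1, Finset.mem_Icc]
        refine ⟨?_, ?_⟩
        · by_contra hc
          have hc' : j ≤ -(a + b : ℤ) - 1 := by omega
          have c1 : (p : ℤ) * j ≤ p * (-(a + b : ℤ) - 1) := mul_le_mul_of_nonneg_left hc' hp0.le
          have c2 : (b : ℤ) * z.2 ≤ b * p := mul_le_mul_of_nonneg_left b2.le (by omega)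
          have c3 : 0 ≤ (a : ℤ) * z.1 := mul_nonneg (by omega) b3
          have c4 : (p : ℤ) * 1 ≤ p * a := mul_le_mul_of_nonneg_left ha0 hp0.le
          nlinarith
        · by_contra hc
          have hc' : (a + b : ℤ) + 1 ≤ j := by omega
          have c1 : (p : ℤ) * (a + b + 1 : ℤ) ≤ p * j := mul_le_mul_of_nonneg_left hc' hp0.le
          have c2 : (a : ℤ) * z.1 ≤ a * p := mul_le_mul_of_nonneg_left b1.le (by omega)
          have c3 : 0 ≤ (b : ℤ) * z.2 := mul_nonneg (by omega) b4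
          have c4 : (p : ℤ) * 1 ≤ p * b := mul_le_mul_of_nonneg_left hb0 hp0.le
          nlinarith
      · show z.1 ∈ ({x ∈ range p | Q (((a : ℤ) * (z.1 : ℕ) - b * (z.2 : ℕ) - d) / p) s x} : Finset ℕ)
        rw [e1]
        refine Finset.mem_filter.mpr ⟨hz1'.1, hz1'.2, z.2, hz2'.2, ?_⟩
        linarith
    · intro z hz z' hz' hzz
      obtain ⟨j, hj⟩ := (Finset.mem_filter.mp (Finset.mem_coe.mp hz)).2
      obtain ⟨j', hj'⟩ := (Finset.mem_filter.mp (Finset.mem_coe.mp hz')).2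
      have h8 := (Sigma.mk.inj_iff.mp hzz).1
      have h9 : z.1 = z'.1 := eq_of_heq (Sigma.mk.inj_iff.mp hzz).2
      have h10 : ((a : ℤ) * (z.1 : ℕ) - b * (z.2 : ℕ) - d) / p = ((a : ℤ) * (z'.1 : ℕ) - b * (z'.2 : ℕ) - d) / p := h8
      rw [hj, hj', Int.mul_ediv_cancel_left _ hp0.ne', Int.mul_ediv_cancel_left _ hp0.ne'] at h10
      refine Prod.ext h9 ?_
      have h11 : (b : ℤ) * (z.2 : ℕ) = b * (z'.2 : ℕ) := by
        rw [h10] at hj
        rw [h9] at hj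
        linarith
      have h12 := mul_left_cancel₀ (by omega : (b : ℤ) ≠ 0) h11
      exact_mod_cast h12
  refine (Finset.sum_le_sum h1).trans ?_
  rw [Finset.sum_comm, Finset.mul_sum]
  refine Finset.sum_le_sum fun j _ => ?_
  refine LAZ_cnt a b T S S' p q _ (Q j) ?_
  intro s hs x hx
  obtain ⟨hx1, y, hy1, hy2⟩ := hx
  refine ⟨hx1, _, hy1, ?_⟩
  have h2 := hT s hs
  push_cast
  linear_combination h2 + (q : ℤ) * hy2

lemma LAZ_pairs (a b : ℕ) (ha : 1 ≤ a) (hb : 1 ≤ b) (R : ℕ) (X X' : Finset ℕ) (hX : X ⊆ range R) (hX' : X' ⊆ range R) :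
    #X * #X' ≤ ∑ w ∈ Ico (-(b * R : ℤ)) (a * R), #(X.filter (fun s : ℕ => (a : ℤ) * (s : ℕ) - b * (LAZ_f a b w s : ℕ) = w ∧ LAZ_f a b w s ∈ X')) := by
  classical
  have ha0 : (1 : ℤ) ≤ a := by exact_mod_cast ha
  have hb0 : (1 : ℤ) ≤ b := by exact_mod_cast hb
  have h1 : ∑ w ∈ Ico (-(b * R : ℤ)) (a * R), #(X.filter (fun s : ℕ => (a : ℤ) * (s : ℕ) - b * (LAZ_f a b w s : ℕ) = w ∧ LAZ_f a b w s ∈ X')) =
      ∑ s ∈ X, #{w ∈ Ico (-(b * R : ℤ)) (a * R) | (a : ℤ) * (s : ℕ) - b * (LAZ_f a b w s : ℕ) = w ∧ LAZ_f a b w s ∈ X'} :=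
    (Finset.sum_card_bipartiteAbove_eq_sum_card_bipartiteBelow
      (fun (s : ℕ) (w : ℤ) => (a : ℤ) * (s : ℕ) - b * (LAZ_f a b w s : ℕ) = w ∧ LAZ_f a b w s ∈ X')).symm
  rw [h1]
  have h2 : ∀ s ∈ X, #X' ≤ #{w ∈ Ico (-(b * R : ℤ)) (a * R) | (a : ℤ) * (s : ℕ) - b * (LAZ_f a b w s : ℕ) = w ∧ LAZ_f a b w s ∈ X'} := by
    intro s hs
    refine Finset.card_le_card_of_injOn (fun v => (a : ℤ) * (s : ℕ) - b * (v : ℕ)) ?_ ?_
    · intro v hv
      have hv' := Finset.mem_coe.mp hv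
      have h3 : (s : ℤ) < R := by exact_mod_cast Finset.mem_range.mp (hX hs)
      have h4 : (v : ℤ) < R := by exact_mod_cast Finset.mem_range.mp (hX' hv')
      have h5 : (0 : ℤ) ≤ s := Int.natCast_nonneg _
      have h6 : (0 : ℤ) ≤ v := Int.natCast_nonneg _
      have hf := LAZ_fe a b hb _ s v rfl
      refine Finset.mem_coe.mpr (Finset.mem_filter.mpr ⟨Finset.mem_Ico.mpr ⟨?_, ?_⟩, ?_, ?_⟩)
      · show -(b * R : ℤ) ≤ (a : ℤ) * (s : ℕ) - b * (v : ℕ)
        have c1 : (b : ℤ) * v ≤ b * R := mul_le_mul_of_nonneg_left h4.le (by omega)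
        have c2 : 0 ≤ (a : ℤ) * s := mul_nonneg (by omega) h5
        linarith
      · show (a : ℤ) * (s : ℕ) - b * (v : ℕ) < a * R
        have c1 : (a : ℤ) * s < a * R := mul_lt_mul_of_pos_left h3 (by omega)
        have c2 : 0 ≤ (b : ℤ) * v := mul_nonneg (by omega) h6
        linarith
      · show (a : ℤ) * (s : ℕ) - b * (LAZ_f a b ((a : ℤ) * (s : ℕ) - b * (v : ℕ)) s : ℕ) = (a : ℤ) * (s : ℕ) - b * (v : ℕ)
        rw [hf]
      · show LAZ_f a b ((a : ℤ) * (s : ℕ) - b * (v : ℕ)) s ∈ X'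
        rw [hf]
        exact hv'
    · intro v _ v' _ hvv
      have h3 : (a : ℤ) * (s : ℕ) - b * (v : ℕ) = (a : ℤ) * (s : ℕ) - b * (v' : ℕ) := hvv
      have h11 : (b : ℤ) * (v : ℕ) = b * (v' : ℕ) := by linarith
      have h12 := mul_left_cancel₀ (by omega : (b : ℤ) ≠ 0) h11
      exact_mod_cast h12
  have h3 := Finset.card_nsmul_le_sum X _ _ h2
  simpa using h3

theorem LAZ (h : PPZ_stmt) : LAZ_stmt := by
  classical
  intro a b ha hb e he he1
  obtain ⟨p₀, hp₀⟩ := exists_nat_ge (8 / e)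
  have hab : (0 : ℝ) < (a : ℝ) + b := by
    have : (1 : ℝ) ≤ a := by exact_mod_cast ha
    have : (1 : ℝ) ≤ b := by exact_mod_cast hb
    linarith
  refine ⟨e ^ 2 / 128, e ^ 4 / (8192 * (a + b)), by positivity, by positivity, p₀ + a + b + 1, ?_⟩
  intro p hp hpp q R S S' l hq hR hpq hS hS' hSe hSe' hl hl1
  have hpa : ¬ p ∣ a := Nat.not_dvd_of_pos_of_lt (by omega) (by omega)
  have hpb : ¬ p ∣ b := Nat.not_dvd_of_pos_of_lt (by omega) (by omega)
  have hR0 : (0 : ℝ) < R := by exact_mod_cast hR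
  have hp1 : 1 ≤ p := hp.one_lt.le
  have hp0 : (0 : ℝ) < p := by exact_mod_cast hp1
  have hpe : 8 ≤ e * p := by
    have h1 : (8 / e : ℝ) ≤ p := le_trans hp₀ (by exact_mod_cast (by omega : p₀ ≤ p))
    rw [div_le_iff₀ he] at h1
    linarith
  have hX := LRA_X e he p q R hp1 hR S hpq hS hSe
  have hX' := LRA_X e he p q R hp1 hR S' hpq hS' hSe'
  set X : Finset ℕ := {s ∈ range R | ((#S : ℝ) / R - e / 4) * p ≤ #(LRA_A p q S s)} with hXdef
  set X' : Finset ℕ := {s ∈ range R | ((#S' : ℝ) / R - e / 4) * p ≤ #(LRA_A p q S' s)} with hX'def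
  have hXR : X ⊆ range R := Finset.filter_subset _ _
  have hX'R : X' ⊆ range R := Finset.filter_subset _ _
  have hpairs := LAZ_pairs a b ha hb R X X' hXR hX'R
  set Sg : ℤ → Finset ℕ := fun w => X.filter (fun s : ℕ => (a : ℤ) * (s : ℕ) - b * (LAZ_f a b w s : ℕ) = w ∧ LAZ_f a b w s ∈ X') with hSg
  set Ω : Finset ℤ := {w ∈ Ico (-(b * R : ℤ)) (a * R) | e ^ 2 * R / (128 * (a + b)) ≤ (#(Sg w) : ℝ)} with hΩ
  refine ⟨Ω, Finset.filter_subset _ _, ?_, ?_⟩
  · have h1 : ((#X : ℝ) * #X') ≤ ∑ w ∈ Ico (-(b * R : ℤ)) (a * R), (#(Sg w) : ℝ) := by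
      have h0 := (Nat.cast_le (α := ℝ)).mpr hpairs
      rw [Nat.cast_mul, Nat.cast_sum] at h0
      exact h0
    have h2 : ∀ w ∈ Ico (-(b * R : ℤ)) (a * R), (#(Sg w) : ℝ) ≤
        (if e ^ 2 * R / (128 * (a + b)) ≤ (#(Sg w) : ℝ) then (R : ℝ) else 0) + e ^ 2 * R / (128 * (a + b)) := by
      intro w _
      have h3 : (#(Sg w) : ℝ) ≤ R := by
        have h4 : #(Sg w) ≤ #(range R) := Finset.card_le_card ((Finset.filter_subset _ _).trans hXR)
        rw [Finset.card_range] at h4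
        exact_mod_cast h4
      have h4 : 0 ≤ e ^ 2 * R / (128 * ((a : ℝ) + b)) := by positivity
      split_ifs with h5
      · linarith
      · have := not_le.mp h5
        linarith
    have h3 := Finset.sum_le_sum h2
    rw [Finset.sum_add_distrib, Finset.sum_const, nsmul_eq_mul, ← Finset.sum_filter, Finset.sum_const, nsmul_eq_mul] at h3
    have h4 : (#(Ico (-(b * R : ℤ)) (a * R)) : ℝ) = (a + b) * R := by
      rw [Int.card_Ico]
      have h5 : ((a * R : ℤ) - -(b * R : ℤ)) = (((a + b) * R : ℕ) : ℤ) := by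
        push_cast
        ring
      rw [h5, Int.toNat_natCast]
      push_cast
      ring
    rw [h4] at h3
    have h5 : (e * R / 8) * (e * R / 8) ≤ (#X : ℝ) * #X' := mul_le_mul hX hX' (by positivity) (by positivity)
    have h6 : (e * R / 8) * (e * R / 8) ≤ (#Ω : ℝ) * R + (a + b) * R * (e ^ 2 * R / (128 * (a + b))) := le_trans h5 (le_trans h1 h3)
    have h8 : ((a : ℝ) + b) * R * (e ^ 2 * R / (128 * (a + b))) = e ^ 2 * R * R / 128 := by
      field_simp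
    rw [h8] at h6
    have h7 : (R : ℝ) * (e ^ 2 / 128 * R) ≤ R * #Ω := by nlinarith
    exact le_of_mul_le_mul_left h7 hR0
  · intro w hw
    have hw' := (Finset.mem_filter.mp hw).2
    have hne : (Sg w).Nonempty := by
      rw [← Finset.card_pos]
      have h1 : 0 < e ^ 2 * R / (128 * ((a : ℝ) + b)) := by positivity
      exact_mod_cast lt_of_lt_of_le h1 hw'
    set t : ℕ := ⌈e * p / 8⌉₊ with ht
    have ht1 : 1 ≤ t := Nat.ceil_pos.mpr (by positivity)
    have ht2 : e * p / 8 ≤ t := Nat.le_ceil _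
    have ht3 : (t : ℝ) ≤ e * p / 4 := by
      have h1 : (t : ℝ) < e * p / 8 + 1 := Nat.ceil_lt_add_one (by positivity)
      linarith
    have key := h p a b hp hpa hpb ℕ (Sg w) (fun s => LRA_A p q S s) (fun s => LRA_A p q S' (LAZ_f a b w s)) t (l - e / 2) (e / 8)
      hne ht1 (by linarith) (by linarith) (by
        intro s hs
        have hs' := Finset.mem_filter.mp hs
        have h1 := (Finset.mem_filter.mp hs'.1).2
        have h2 := (Finset.mem_filter.mp hs'.2.2).2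
        have h3 : e ≤ (#S : ℝ) / R := by
          rw [le_div_iff₀ hR0]
          exact hSe
        have h4 : e ≤ (#S' : ℝ) / R := by
          rw [le_div_iff₀ hR0]
          exact hSe'
        have h5 : l ≤ (#S : ℝ) / R + (#S' : ℝ) / R := by
          rw [← add_div, le_div_iff₀ hR0]
          exact hl
        refine ⟨LRA_A_sub _ _ _ _, LRA_A_sub _ _ _ _, ?_, ?_, ?_⟩
        · have h6 : (t : ℝ) ≤ #(LRA_A p q S s) := by nlinarith
          exact_mod_cast h6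
        · have h6 : (t : ℝ) ≤ #(LRA_A p q S' (LAZ_f a b w s)) := by nlinarith
          exact_mod_cast h6
        · nlinarith)
    have h1 : (l - e) * p ≤ (l - e / 2 - e / 8) * p - t := by nlinarith
    refine le_trans h1 (le_trans key ?_)
    refine Nat.cast_le.mpr (Finset.card_le_card ?_)
    intro d hd
    have hd' := Finset.mem_filter.mp hd
    refine Finset.mem_filter.mpr ⟨hd'.1, ?_⟩
    have h2 := LAZ_rd a b ha hb p q d hp1 (Finset.mem_range.mp hd'.1) S S' (Sg w) w (fun s hs => (Finset.mem_filter.mp hs).2.1)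
    have h3 : ∑ s ∈ Sg w, (rdz p a b (LRA_A p q S s) (LRA_A p q S' (LAZ_f a b w s)) d : ℝ) ≤
      p * ∑ j ∈ Icc (-(a + b : ℤ)) (a + b), (ctz a b S S' (w + q * (d : ℕ) + q * p * j) : ℝ) := by exact_mod_cast h2
    have h4 : (e / 8) * ((e ^ 2 * R / (128 * (a + b))) * (e * p / 8)) ≤ e / 8 * (#(Sg w) * t) := by
      refine mul_le_mul_of_nonneg_left ?_ (by positivity)
      exact mul_le_mul hw' ht2 (by positivity) (by positivity)
    have h4' : (e / 8) * ((e ^ 2 * R / (128 * ((a : ℝ) + b))) * (e * p / 8)) = p * (e ^ 4 / (8192 * (a + b)) * R) := by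
      field_simp
      ring
    rw [h4'] at h4
    have h5 : (p : ℝ) * (e ^ 4 / (8192 * (a + b)) * R) ≤ p * ∑ j ∈ Icc (-(a + b : ℤ)) (a + b), (ctz a b S S' (w + q * (d : ℕ) + q * p * j) : ℝ) :=
      h4.trans (hd'.2.trans h3)
    exact le_of_mul_le_mul_left h5 hp0

end Pool.Agent.HF
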